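import Mathlib
import Pool.Agent.H15.EGH.Main
import Pool.Agent.H12.EGH.Asm
import Pool.Agent.H66.EGH.Rees

set_option autoImplicit false

/-!
The Cayley-Bacharach bound for complete intersections of quadrics, in every degree `d`
(also `d > c`), over every field, in the exact form `2^c - 2^(c-d)` with a real exponent.
-/

namespace Pool.Agent.Results.MP_b4b81f_ag.AllDegrees

open MvPolynomial Pool.Agent.H15.EGH

/-- the case of large degree: the bound `2^c - 1` -/
theorem big {K L : Type} [Field K] [Field L] [Algebra K L] (c : ℕ)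
    (H' : LinFor L c)
    (q : Fin c → MvPolynomial (Fin (c + 1)) K) (hq : ∀ j, (q j).IsHomogeneous 2)
    (hreg : RingTheory.Sequence.IsRegular (MvPolynomial (Fin (c + 1)) K) (List.ofFn q))
    (d : ℕ) (f : MvPolynomial (Fin (c + 1)) K) (hf' : f.IsHomogeneous d)
    (hfI : f ∉ Ideal.span (Set.range q)) : ∃ N, ∀ m, N ≤ m →
      hf (Ideal.span (Set.range q) ⊔ Ideal.span {f}) m ≤ 2 ^ c - 1 := by
  set φ := MvPolynomial.map (σ := Fin (c + 1)) (algebraMap K L) with hφ
  let qL : Fin c → MvPolynomial (Fin (c + 1)) L := fun j => φ (q j)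
  have hqL : ∀ j, (qL j).IsHomogeneous 2 := fun j => (hq j).map _
  have hlist : (List.ofFn q).map φ = List.ofFn qL := by
    rw [List.map_ofFn]; rfl
  have hregL : RingTheory.Sequence.IsRegular (MvPolynomial (Fin (c + 1)) L) (List.ofFn qL) := by
    refine ⟨?_, top_ne_of_hom _ ?_⟩
    · rw [← hlist]
      exact wr_map _ hreg.1
    · intro r hr
      rw [List.mem_ofFn] at hr
      obtain ⟨j, rfl⟩ := hr
      exact hqL j
  have hspan : Ideal.span (Set.range qL) = (Ideal.span (Set.range q)).map φ := by
    rw [Ideal.map_span, ← Set.range_comp]; rfl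
  have hfL : φ f ∉ Ideal.span (Set.range qL) := by
    intro h
    rw [hspan] at h
    obtain ⟨ψ, hψ⟩ := LinearMap.exists_leftInverse_of_injective (Algebra.linearMap K L)
      (LinearMap.ker_eq_bot.mpr (algebraMap K L).injective)
    have hψ1 : ψ 1 = 1 := by
      have := LinearMap.congr_fun hψ 1
      simpa using this
    have h1 := lam_mem ψ _ _ h
    have h2 : lam ψ (φ f) = f := by
      have := lam_C_mul_map ψ 1 f
      rw [map_one, one_mul, hψ1, map_one, one_mul] at this
      exact this
    rw [h2] at h1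
    exact hfI h1
  obtain ⟨ℓ, hℓ, hℓr⟩ := H' qL hqL hregL
  have hpow : ∀ k, ℓ ^ k * φ f ∉ Ideal.span (Set.range qL) := by
    intro k
    induction k with
    | zero => simpa using hfL
    | succ k ih =>
      intro h
      apply ih
      apply hℓr
      rw [← mul_assoc, ← pow_succ']
      exact h
  refine ⟨max c d, fun m hm => ?_⟩
  have hdm : d ≤ m := le_trans (le_max_right _ _) hm
  have h3 : hf (Ideal.span (Set.range qL) ⊔ Ideal.span {φ f}) m <
      hf (Ideal.span (Set.range qL)) m := by
    refine hf_lt le_sup_left m (ℓ ^ (m - d) * φ f) ?_ ?_ (hpow _)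
    · have h4 := (hℓ.pow (m - d)).mul (hf'.map (algebraMap K L))
      have e : 1 * (m - d) + d = m := by omega
      rw [e] at h4
      exact h4
    · exact Ideal.mem_sup_right (Ideal.mul_mem_left _ _ (Ideal.mem_span_singleton_self _))
  have h5 := hfI_le qL hqL hregL ℓ hℓ hℓr m (le_trans (le_max_left _ _) hm)
  have h4 : Ideal.span (Set.range qL) ⊔ Ideal.span {φ f} =
      (Ideal.span (Set.range q) ⊔ Ideal.span {f}).map φ := by
    rw [Ideal.map_sup, hspan, Ideal.map_span φ {f}, Set.image_singleton]
  rw [h4, hφ, hf_baseChange _ (homI_sup _ (homI_range q hq) f d hf')] at h3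
  omega

/-- Cayley-Bacharach bound for complete intersections of quadrics: if `I` is generated by a
regular sequence of `c` quadratic forms in `c + 1` variables over any field and `f` is a form of
any degree `d` outside `I`, then `dim_K (S/(I,f))_n ≤ 2^c - 2^c / 2^d` for all large `n`. -/
theorem result :
    ∀ (K : Type) [Field K] (c : ℕ) (qs : Fin c → MvPolynomial (Fin (c + 1)) K),
      (∀ i, (qs i).IsHomogeneous 2) →
      RingTheory.Sequence.IsRegular (MvPolynomial (Fin (c + 1)) K) (List.ofFn qs) →
      ∀ (d : ℕ) (f : MvPolynomial (Fin (c + 1)) K),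
        f.IsHomogeneous d →
        f ∉ Ideal.span (Set.range qs) →
        ∃ N : ℕ, ∀ n : ℕ, N ≤ n →
          (Module.finrank K
            (↥(MvPolynomial.homogeneousSubmodule (Fin (c + 1)) K n) ⧸
              Submodule.comap (MvPolynomial.homogeneousSubmodule (Fin (c + 1)) K n).subtype
                (Submodule.restrictScalars K (Ideal.span (Set.range qs) ⊔ Ideal.span {f}))) : ℝ)
            ≤ 2 ^ c - 2 ^ c / 2 ^ d := by
  intro K _ c qs hq hreg d f hf' hfI
  have hinf : Infinite (FractionRing (Polynomial K)) :=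
    Infinite.of_injective (algebraMap (Polynomial K) (FractionRing (Polynomial K)))
      (IsFractionRing.injective _ _)
  have hlin : LinFor (FractionRing (Polynomial K)) c := fun q hq hreg => exists_linear q hq hreg
  rcases le_or_gt d c with hdc | hdc
  · obtain ⟨N, hN⟩ := final (L := FractionRing (Polynomial K)) c
      (fun q hq hreg J hJ hqJ => egh_quadrics q hq hreg J hJ hqJ) hlin qs hq hreg d hdc f
      hf' hfI
    refine ⟨N, fun n hn => ?_⟩
    rw [finrank_eq_hf]
    have h1 := hN n hn
    have h2 : 2 ^ (c - d) ≤ 2 ^ c := Nat.pow_le_pow_right (by norm_num) (by omega)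
    have h3 : hf (Ideal.span (Set.range qs) ⊔ Ideal.span {f}) n + 2 ^ (c - d) ≤ 2 ^ c := by omega
    have h4 : ((hf (Ideal.span (Set.range qs) ⊔ Ideal.span {f}) n : ℕ) : ℝ) + 2 ^ (c - d) ≤
        2 ^ c := by exact_mod_cast h3
    have h5 : (2 : ℝ) ^ c / 2 ^ d = 2 ^ (c - d) := by
      rw [div_eq_iff (by positivity), ← pow_add]
      congr 1
      omega
    rw [h5]
    linarith
  · obtain ⟨N, hN⟩ := big (L := FractionRing (Polynomial K)) c hlin qs hq hreg d f hf' hfI
    refine ⟨N, fun n hn => ?_⟩
    rw [finrank_eq_hf]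
    have h1 := hN n hn
    have h2 : 1 ≤ 2 ^ c := Nat.one_le_two_pow
    have h3 : hf (Ideal.span (Set.range qs) ⊔ Ideal.span {f}) n + 1 ≤ 2 ^ c := by omega
    have h4 : ((hf (Ideal.span (Set.range qs) ⊔ Ideal.span {f}) n : ℕ) : ℝ) + 1 ≤
        2 ^ c := by exact_mod_cast h3
    have h5 : (2 : ℝ) ^ c / 2 ^ d ≤ 1 := by
      rw [div_le_one (by positivity)]
      exact pow_le_pow_right₀ (by norm_num) (by omega)
    linarith

end Pool.Agent.Results.MP_b4b81f_ag.AllDegrees
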